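import Pool.Agent.H7.HD.Targets6

/-!
# MP_e37c09_lc: module FA, the family of small sets
-/

open Ordinal Cardinal Order Set
open scoped ZFSet

universe u

namespace Pool.Agent.H35.HD.FA

open _root_.HD Pool.Agent.H20.HD.OT Pool.Agent.H62.HD.KE

theorem few_mono {K : Ordinal.{u}} {S T : Set Ordinal.{u}} (h : Few K S) (hTS : T ⊆ S) :
    Few K T := by
  obtain ⟨τ, hτ, e, he⟩ := h
  exact ⟨τ, hτ, e, fun x hx => he x (hTS hx)⟩

/-- the indices of the elements of `T` in terms of the boxes given by `Y` -/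
theorem xz_iff {Y T : Set Ordinal.{u}} {Z : Ordinal.{u} → Ordinal.{u} → Prop}
    {lam β i : Ordinal.{u}} (hlim : IsSuccLimit lam) (hi : i < lam)
    (hot : ∀ i < lam, ∃ z, nth Y i z) (hT : ∀ z, z ∈ T ↔ Z β z ∧ z ∈ Y) :
    Xz Y Z β i ↔ ∃ a ∈ T, Bx Y i a := by
  obtain ⟨ξ', hξ'⟩ := hot (succ i) (hlim.succ_lt hi)
  constructor
  · rintro ⟨z, hz, hZ⟩
    exact ⟨z, (hT z).2 ⟨hZ, hz.1⟩, z, ξ', hz, hξ', le_rfl,
      ((All.vh Y).2.1 _ _ _ _ hz hξ').1 (lt_succ i)⟩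
  · rintro ⟨a, haT, ξ, ξ'', h1, h2, h3, h4⟩
    obtain ⟨hZ, haY⟩ := (hT a).1 haT
    obtain ⟨j, -, hj⟩ := (All.vh Y).1 a haY
    have hji : j = i := by
      rcases lt_trichotomy j i with h | h | h
      · exact absurd (((All.vh Y).2.1 _ _ _ _ hj h1).1 h) (not_lt.2 h3)
      · exact h
      · exfalso
        have h5 : j < succ i := ((All.vh Y).2.1 _ _ _ _ hj h2).2 h4
        exact absurd (Order.lt_succ_iff.1 h5) (not_le.2 h)
    rw [hji] at hj
    exact ⟨a, hj, hZ⟩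

/-- FA. -/
theorem fa (hYY : T_YY.{u}) : T_FA.{u} := by
  intro en M K lam c Z hen hlam hreg hat hZ
  obtain ⟨hY, hYu, -⟩ := hYY en M K lam c Z hen hlam hat hZ
  have hlim : IsSuccLimit lam := hreg.1
  have hot : ∀ i < lam, ∃ z, nth (Yz en M lam c Z) i z :=
    All.ot lam _ hreg hY (fun z hz => hz.1) hYu
  have hN : DR fun a z => nth (Yz en M lam c Z) a z :=
    All.db (fun a _ => a ∈ Yz en M lam c Z) (hY.congr fun _ => Iff.rfl)
  refine ⟨?_, ?_, ?_⟩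
  · refine DO.ex (R := fun z w => nth (Yz en M lam c Z) (w 1) z ∧ Z (w 0) z) ?_
    exact (hN.s2 2 0).and (hZ.dr.s2 1 0)
  · intro hp
    refine hZ.few (hp.mono fun β _ hβX _ => ?_)
    intro hF
    apply hβX.2
    have hTd : DS {z | Z β z ∧ z ∈ Yz en M lam c Z} :=
      ((DO.sect1 hZ.dr β).and hY).congr fun w => Iff.rfl
    have hTF : Few K.ord {z | Z β z ∧ z ∈ Yz en M lam c Z} := few_mono hF fun z hz => hz.1
    obtain ⟨a, ha, hna⟩ := Pool.Agent.H20.HD.CS.idx_of_few All.vh hTF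
    refine pk_of ha hY hTd (fun i hi => xz_iff hlim hi hot fun z => Iff.rfl) ?_
    intro z hz
    obtain ⟨a', -, ha'⟩ := (All.vh {z | Z β z ∧ z ∈ Yz en M lam c Z}).1 z hz
    exact ⟨a', idx_lt All.vh hna ha', ha'⟩
  · intro i hi hp
    obtain ⟨z, hz⟩ := hot i hi
    refine hz.1.2 (hp.mono fun β _ hβX _ => ⟨hβX.1, fun h => hβX.2 ⟨z, hz, h⟩⟩)

end Pool.Agent.H35.HD.FA
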