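import Pool.Agent.H82.HD.TC

/-!
# Approximate multipliers: products, inverses, negatives and sums

Ruzsa triangle inequality, covering and Pluennecke for the rounded dilates.
-/

set_option autoImplicit false

open Finset
open scoped Pointwise

namespace Pool.Agent.H35.HD

open Pool.Agent.H82.HD

section

variable {ι : Type} [Fintype ι]

theorem card_fl_sub (c : ℝ) (X Y : Finset (ι → ℤ)) :
    (((fl c (X - Y)).card : ℕ) : ℝ) ≤
      2 ^ Fintype.card ι * ((fl c X - fl c Y).card : ℝ) := by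
  classical
  set E : Finset (ι → ℤ) := Fintype.piFinset (fun _ : ι => ({-1, 0} : Finset ℤ)) with hE
  have hEc : E.card = 2 ^ Fintype.card ι := by
    rw [hE, Fintype.card_piFinset]
    simp
  have hsub : fl c (X - Y) ⊆ (fl c X - fl c Y) + E := by
    intro z hz
    unfold fl at hz
    rw [mem_image] at hz
    obtain ⟨w, hw, rfl⟩ := hz
    rw [mem_sub] at hw
    obtain ⟨x, hx, y, hy, rfl⟩ := hw
    rw [mem_add]
    refine ⟨(fun i => ⌊c * (x i : ℝ)⌋) - (fun i => ⌊c * (y i : ℝ)⌋), ?_,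
      fun i => ⌊c * (((x - y) i : ℤ) : ℝ)⌋ - (⌊c * (x i : ℝ)⌋ - ⌊c * (y i : ℝ)⌋), ?_, ?_⟩
    · rw [mem_sub]
      refine ⟨_, ?_, _, ?_, rfl⟩
      · unfold fl
        exact mem_image_of_mem _ hx
      · unfold fl
        exact mem_image_of_mem _ hy
    · rw [hE, Fintype.mem_piFinset]
      intro i
      have h0 : c * (((x - y) i : ℤ) : ℝ) = c * (x i : ℝ) - c * (y i : ℝ) := by
        rw [Pi.sub_apply]
        push_cast
        ring
      rw [h0]
      have h1 := Int.floor_le (c * (x i : ℝ))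
      have h2 := Int.lt_floor_add_one (c * (x i : ℝ))
      have h3 := Int.floor_le (c * (y i : ℝ))
      have h4 := Int.lt_floor_add_one (c * (y i : ℝ))
      have h5 := Int.floor_le (c * (x i : ℝ) - c * (y i : ℝ))
      have h6 := Int.lt_floor_add_one (c * (x i : ℝ) - c * (y i : ℝ))
      set a := ⌊c * (x i : ℝ)⌋
      set b := ⌊c * (y i : ℝ)⌋
      set d := ⌊c * (x i : ℝ) - c * (y i : ℝ)⌋
      have h7 : ((d : ℤ) : ℝ) < ((a - b + 1 : ℤ) : ℝ) := by push_cast; linarith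
      have h8 : ((a - b - 2 : ℤ) : ℝ) < ((d : ℤ) : ℝ) := by push_cast; linarith
      have h9 : d < a - b + 1 := by exact_mod_cast h7
      have h10 : a - b - 2 < d := by exact_mod_cast h8
      rw [mem_insert, mem_singleton]
      omega
    · funext i
      simp only [Pi.add_apply, Pi.sub_apply]
      ring
  have h1 : (fl c (X - Y)).card ≤ (fl c X - fl c Y).card * E.card :=
    (card_le_card hsub).trans (card_add_le)
  have h2 : (((fl c (X - Y)).card : ℕ) : ℝ) ≤ ((fl c X - fl c Y).card : ℝ) * (E.card : ℝ) := by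
    exact_mod_cast h1
  rw [hEc] at h2
  push_cast at h2
  linarith

theorem card_sub_comm (X Y : Finset (ι → ℤ)) : (X - Y).card = (Y - X).card := by
  rw [← card_neg (X - Y), neg_sub]

theorem tri (X Y Z : Finset (ι → ℤ)) :
    ((X - Z).card : ℝ) * (Y.card : ℝ) ≤ ((X - Y).card : ℝ) * ((Y - Z).card : ℝ) := by
  rw [card_sub_comm Y Z]
  exact_mod_cast ruzsa_triangle_inequality_sub_sub_sub X Y Z

theorem cast_aux (a b c k : ℕ) (κ : ℝ) (h0 : 0 < b) (h : (a : ℝ) ≤ κ * (b : ℝ))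
    (h1 : (c : ℚ≥0) ≤ ((a : ℚ≥0) / (b : ℚ≥0)) ^ k * (b : ℚ≥0)) :
    (c : ℝ) ≤ κ ^ k * (b : ℝ) := by
  have h2 : (c : ℝ) ≤ ((a : ℝ) / (b : ℝ)) ^ k * (b : ℝ) := by
    have h3 := (NNRat.cast_le (K := ℝ)).2 h1
    push_cast at h3
    exact h3
  have hpos : (0 : ℝ) < (b : ℝ) := by exact_mod_cast h0
  have h3 : (a : ℝ) / (b : ℝ) ≤ κ := by
    rw [div_le_iff₀ hpos]
    exact h
  refine h2.trans ?_
  gcongr

theorem plu1 (B : Finset (ι → ℤ)) (hB : B.Nonempty) (κ : ℝ)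
    (h : ((B - B).card : ℝ) ≤ κ * (B.card : ℝ)) :
    ((B + B - B).card : ℝ) ≤ κ ^ 3 * (B.card : ℝ) := by
  have h1 := pluennecke_ruzsa_inequality_nsmul_sub_nsmul_sub hB B 2 1
  rw [two_nsmul, one_nsmul] at h1
  exact cast_aux _ _ _ 3 κ hB.card_pos h h1

theorem plu2 (B : Finset (ι → ℤ)) (hB : B.Nonempty) (κ : ℝ)
    (h : ((B - B).card : ℝ) ≤ κ * (B.card : ℝ)) :
    ((B + B + B - (B + B)).card : ℝ) ≤ κ ^ 5 * (B.card : ℝ) := by
  have h1 := pluennecke_ruzsa_inequality_nsmul_sub_nsmul_sub hB B 3 2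
  rw [two_nsmul, succ_nsmul, two_nsmul] at h1
  exact cast_aux _ _ _ 5 κ hB.card_pos h h1

theorem cov (Y B : Finset (ι → ℤ)) (hB : B.Nonempty) (κ : ℝ)
    (h : ((Y - B).card : ℝ) ≤ κ * (B.card : ℝ)) :
    ∃ F : Finset (ι → ℤ), (F.card : ℝ) ≤ κ ∧ Y ⊆ F + (B - B) := by
  have h1 : ((Y + -B).card : ℝ) ≤ κ * ((-B).card : ℝ) := by
    rw [card_neg, ← sub_eq_add_neg]
    exact h
  obtain ⟨F, _, hF, hYF⟩ := ruzsa_covering_add hB.neg h1
  refine ⟨F, hF, ?_⟩
  rwa [neg_sub_neg] at hYF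

theorem card_add_sum (B Y : Finset (ι → ℤ)) (hB : B.Nonempty) (κ : ℝ) (hκ : 0 ≤ κ)
    (hBB : ((B - B).card : ℝ) ≤ κ * (B.card : ℝ)) (hY : ((B - Y).card : ℝ) ≤ κ * (B.card : ℝ)) :
    ((B + Y).card : ℝ) ≤ κ ^ 4 * (B.card : ℝ) := by
  rw [card_sub_comm] at hY
  obtain ⟨F, hF, hYF⟩ := cov Y B hB κ hY
  have h1 : B + Y ⊆ F + (B + B - B) := by
    have e : F + (B + B - B) = B + (F + (B - B)) := by
      simp only [sub_eq_add_neg]
      ac_rfl
    rw [e]
    exact add_subset_add_left hYF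
  have h2 : (B + Y).card ≤ F.card * (B + B - B).card := (card_le_card h1).trans card_add_le
  have h3 : ((B + Y).card : ℝ) ≤ (F.card : ℝ) * ((B + B - B).card : ℝ) := by exact_mod_cast h2
  have h4 := plu1 B hB κ hBB
  calc ((B + Y).card : ℝ) ≤ (F.card : ℝ) * ((B + B - B).card : ℝ) := h3
    _ ≤ κ * (κ ^ 3 * (B.card : ℝ)) := by gcongr
    _ = κ ^ 4 * (B.card : ℝ) := by ring

theorem card_sub_sum (B Y Y' : Finset (ι → ℤ)) (hB : B.Nonempty) (κ : ℝ) (hκ : 0 ≤ κ)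
    (hBB : ((B - B).card : ℝ) ≤ κ * (B.card : ℝ)) (hY : ((B - Y).card : ℝ) ≤ κ * (B.card : ℝ))
    (hY' : ((B - Y').card : ℝ) ≤ κ * (B.card : ℝ)) :
    ((B - (Y + Y')).card : ℝ) ≤ κ ^ 7 * (B.card : ℝ) := by
  rw [card_sub_comm] at hY hY'
  obtain ⟨F, hF, hYF⟩ := cov Y B hB κ hY
  obtain ⟨F', hF', hYF'⟩ := cov Y' B hB κ hY'
  have h1 : B - (Y + Y') ⊆ -(F + F') + (B + B + B - (B + B)) := by
    have e : -(F + F') + (B + B + B - (B + B)) = B - ((F + (B - B)) + (F' + (B - B))) := by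
      simp only [sub_eq_add_neg, neg_add, neg_neg]
      ac_rfl
    rw [e]
    exact sub_subset_sub_left (add_subset_add hYF hYF')
  have h2 : (B - (Y + Y')).card ≤ (-(F + F')).card * (B + B + B - (B + B)).card :=
    (card_le_card h1).trans card_add_le
  have h5 : (F + F').card ≤ F.card * F'.card := card_add_le
  have h3 : ((B - (Y + Y')).card : ℝ) ≤
      ((F + F').card : ℝ) * ((B + B + B - (B + B)).card : ℝ) := by
    rw [card_neg] at h2
    exact_mod_cast h2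
  have h6 : ((F + F').card : ℝ) ≤ (F.card : ℝ) * (F'.card : ℝ) := by exact_mod_cast h5
  have h7 : (F.card : ℝ) * (F'.card : ℝ) ≤ κ * κ := by gcongr
  have h4 := plu2 B hB κ hBB
  calc ((B - (Y + Y')).card : ℝ) ≤ ((F + F').card : ℝ) * ((B + B + B - (B + B)).card : ℝ) := h3
    _ ≤ (κ * κ) * (κ ^ 5 * (B.card : ℝ)) := by
      gcongr
      exact h6.trans h7
    _ = κ ^ 7 * (B.card : ℝ) := by ring

end

theorem bd1 (K L : ℝ) (D : ℕ) (hK : 1 ≤ K) (hL : 1 ≤ L) :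
    (2 * L + 4) ^ D * (2 ^ D * (L + 2) ^ D) * K ^ 3 ≤ (K * (20 * L) ^ D) ^ 20 := by
  have hP : 1 ≤ (20 * L) ^ D := one_le_pow₀ (by linarith)
  have h1 : (2 * L + 4) ^ D * (2 ^ D * (L + 2) ^ D) ≤ ((20 * L) ^ D) ^ 2 := by
    rw [← mul_pow, ← mul_pow, ← pow_mul, mul_comm D 2, pow_mul]
    apply pow_le_pow_left₀ (by positivity)
    nlinarith
  have h2 : ((20 * L) ^ D) ^ 2 ≤ ((20 * L) ^ D) ^ 20 := pow_le_pow_right₀ hP (by norm_num)
  have h3 : K ^ 3 ≤ K ^ 20 := pow_le_pow_right₀ hK (by norm_num)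
  calc (2 * L + 4) ^ D * (2 ^ D * (L + 2) ^ D) * K ^ 3
      ≤ ((20 * L) ^ D) ^ 20 * K ^ 20 := by
        apply mul_le_mul (h1.trans h2) h3 (by positivity) (by positivity)
    _ = (K * (20 * L) ^ D) ^ 20 := by ring

theorem bd2 (K L : ℝ) (D : ℕ) (hK : 1 ≤ K) (hL : 1 ≤ L) :
    2 ^ D * K ^ 15 ≤ (K * (20 * L) ^ D) ^ 20 := by
  have hP : 1 ≤ (20 * L) ^ D := one_le_pow₀ (by linarith)
  have h1 : (2 : ℝ) ^ D ≤ (20 * L) ^ D := pow_le_pow_left₀ (by norm_num) (by linarith) D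
  have h2 : (20 * L) ^ D ≤ ((20 * L) ^ D) ^ 20 := by
    calc (20 * L) ^ D = ((20 * L) ^ D) ^ 1 := by ring
      _ ≤ _ := pow_le_pow_right₀ hP (by norm_num)
  have h3 : K ^ 15 ≤ K ^ 20 := pow_le_pow_right₀ hK (by norm_num)
  calc 2 ^ D * K ^ 15 ≤ ((20 * L) ^ D) ^ 20 * K ^ 20 := by
        apply mul_le_mul (h1.trans h2) h3 (by positivity) (by positivity)
    _ = (K * (20 * L) ^ D) ^ 20 := by ring

theorem pf_MUL (hFLB : T_FLB) : T_MUL := by
  refine ⟨20, by norm_num, ?_⟩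
  intro ι _ B N K L hK hL hN hNB hBN hBB
  have hK0 : 0 < K := by linarith
  have hL0 : 0 < L := by linarith
  have hBpos : (0 : ℝ) < B.card := by
    by_contra hc
    have : (B.card : ℝ) ≤ 0 := not_lt.1 hc
    nlinarith
  have hBne : B.Nonempty := by
    rw [← card_pos]
    exact_mod_cast hBpos
  have hκ : K * N ≤ K ^ 2 * B.card := by nlinarith
  have hc20 : ((20 : ℕ) : ℝ) = 20 := by norm_num
  rw [hc20]
  have b1 := bd1 K L (Fintype.card ι) hK hL
  have b2 := bd2 K L (Fintype.card ι) hK hL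
  have hK3 : K ≤ K ^ 3 := by
    calc K = K ^ 1 := by ring
      _ ≤ K ^ 3 := pow_le_pow_right₀ hK (by norm_num)
  refine ⟨fun lam mu hl1 hl2 hm1 hm2 hql hqm => ⟨?_, ?_⟩, fun lam mu hl1 hl2 hql hqm => ⟨?_, ?_⟩⟩
  · unfold Qm at *
    obtain ⟨f1, f2, f3, f4, f5, f6, f7, f8, f9⟩ := hFLB ι B (fl mu B) lam mu L hL hl1 hl2
    obtain ⟨g1, g2, g3, g4, g5, g6, g7, g8, g9⟩ := hFLB ι B B lam mu L hL hl1 hl2
    have ht := tri B (fl lam B) (fl lam (fl mu B))
    set Y : ℝ := ((fl lam B).card : ℝ) with hY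
    set X : ℝ := ((B - fl lam (fl mu B)).card : ℝ) with hX
    have hX0 : 0 ≤ X := Nat.cast_nonneg _
    have hYb : N ≤ K * ((L + 2) ^ Fintype.card ι * Y) :=
      hNB.trans (mul_le_mul_of_nonneg_left f1 hK0.le)
    have h1 : X * Y ≤ (K * N) * (2 ^ Fintype.card ι * (K * N)) := by
      refine ht.trans ?_
      apply mul_le_mul hql (f3.trans ?_) (Nat.cast_nonneg _) (by positivity)
      exact mul_le_mul_of_nonneg_left hqm (by positivity)
    have h2 : X ≤ 2 ^ Fintype.card ι * (L + 2) ^ Fintype.card ι * K ^ 3 * N := by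
      have h3 : X * N ≤ (2 ^ Fintype.card ι * (L + 2) ^ Fintype.card ι * K ^ 3 * N) * N := by
        calc X * N ≤ X * (K * ((L + 2) ^ Fintype.card ι * Y)) :=
              mul_le_mul_of_nonneg_left hYb hX0
          _ = (K * (L + 2) ^ Fintype.card ι) * (X * Y) := by ring
          _ ≤ (K * (L + 2) ^ Fintype.card ι) * ((K * N) * (2 ^ Fintype.card ι * (K * N))) :=
              mul_le_mul_of_nonneg_left h1 (by positivity)
          _ = _ := by ring
      exact le_of_mul_le_mul_right h3 hN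
    calc ((B - fl (lam * mu) B).card : ℝ) ≤ (2 * L + 4) ^ Fintype.card ι * X := g4
      _ ≤ (2 * L + 4) ^ Fintype.card ι *
          (2 ^ Fintype.card ι * (L + 2) ^ Fintype.card ι * K ^ 3 * N) :=
          mul_le_mul_of_nonneg_left h2 (by positivity)
      _ = ((2 * L + 4) ^ Fintype.card ι * (2 ^ Fintype.card ι * (L + 2) ^ Fintype.card ι) *
          K ^ 3) * N := by ring
      _ ≤ (K * (20 * L) ^ Fintype.card ι) ^ 20 * N := mul_le_mul_of_nonneg_right b1 hN.le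
  · unfold Qm at *
    have hlam : lam ≠ 0 := by
      rintro rfl
      rw [abs_zero] at hl1
      have : 0 < L⁻¹ := by positivity
      linarith
    obtain ⟨f1, -⟩ := hFLB ι (B - fl lam⁻¹ B) B lam lam⁻¹ L hL hl1 hl2
    obtain ⟨-, -, -, -, g5, -, -, -, -⟩ := hFLB ι (fl lam B) B lam lam⁻¹ L hL hl1 hl2
    obtain ⟨-, -, -, -, -, -, -, -, g9⟩ := hFLB ι B B lam lam⁻¹ L hL hl1 hl2
    rw [mul_inv_cancel₀ hlam, g9] at g5
    have h1 := card_fl_sub lam B (fl lam⁻¹ B)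
    rw [card_sub_comm (fl lam B) B] at g5
    calc ((B - fl lam⁻¹ B).card : ℝ)
        ≤ (L + 2) ^ Fintype.card ι * ((fl lam (B - fl lam⁻¹ B)).card : ℝ) := f1
      _ ≤ (L + 2) ^ Fintype.card ι * (2 ^ Fintype.card ι *
          ((2 * L + 4) ^ Fintype.card ι * (K * N))) := by
          apply mul_le_mul_of_nonneg_left _ (by positivity)
          refine h1.trans (mul_le_mul_of_nonneg_left ?_ (by positivity))
          exact g5.trans (mul_le_mul_of_nonneg_left hql (by positivity))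
      _ = ((2 * L + 4) ^ Fintype.card ι * (2 ^ Fintype.card ι * (L + 2) ^ Fintype.card ι) *
          K) * N := by ring
      _ ≤ ((2 * L + 4) ^ Fintype.card ι * (2 ^ Fintype.card ι * (L + 2) ^ Fintype.card ι) *
          K ^ 3) * N := by gcongr
      _ ≤ (K * (20 * L) ^ Fintype.card ι) ^ 20 * N := mul_le_mul_of_nonneg_right b1 hN.le
  · unfold Qm at *
    obtain ⟨-, -, -, -, -, -, g7, -, -⟩ := hFLB ι B B lam mu L hL hl1 hl2
    have h1 := card_add_sum B (fl lam B) hBne (K ^ 2) (by positivity) (hBB.trans hκ)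
      (hql.trans hκ)
    calc ((B - fl (-lam) B).card : ℝ) ≤ 2 ^ Fintype.card ι * ((B + fl lam B).card : ℝ) := g7
      _ ≤ 2 ^ Fintype.card ι * ((K ^ 2) ^ 4 * (K * N)) := by
          apply mul_le_mul_of_nonneg_left _ (by positivity)
          exact h1.trans (mul_le_mul_of_nonneg_left hBN (by positivity))
      _ = (2 ^ Fintype.card ι * K ^ 9) * N := by ring
      _ ≤ (2 ^ Fintype.card ι * K ^ 15) * N := by
          have : K ^ 9 ≤ K ^ 15 := pow_le_pow_right₀ hK (by norm_num)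
          gcongr
      _ ≤ (K * (20 * L) ^ Fintype.card ι) ^ 20 * N := mul_le_mul_of_nonneg_right b2 hN.le
  · unfold Qm at *
    obtain ⟨-, -, -, -, -, g6, -, -, -⟩ := hFLB ι B B lam mu L hL hl1 hl2
    have h1 := card_sub_sum B (fl lam B) (fl mu B) hBne (K ^ 2) (by positivity) (hBB.trans hκ)
      (hql.trans hκ) (hqm.trans hκ)
    calc ((B - fl (lam + mu) B).card : ℝ)
        ≤ 2 ^ Fintype.card ι * ((B - (fl lam B + fl mu B)).card : ℝ) := g6
      _ ≤ 2 ^ Fintype.card ι * ((K ^ 2) ^ 7 * (K * N)) := by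
          apply mul_le_mul_of_nonneg_left _ (by positivity)
          exact h1.trans (mul_le_mul_of_nonneg_left hBN (by positivity))
      _ = (2 ^ Fintype.card ι * K ^ 15) * N := by ring
      _ ≤ (K * (20 * L) ^ Fintype.card ι) ^ 20 * N := mul_le_mul_of_nonneg_right b2 hN.le

end Pool.Agent.H35.HD
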